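import Pool.Agent.L0h38.GI.Stm3

/-!
# Module SBS of project GI2: refinement of the vertex groups of a graph product
-/

set_option autoImplicit false

namespace Pool.Agent.L0h68.GI

open Pool.Agent.L0h38.GI

/-! ## 1. reindexing -/

theorem reindex {V V' : Type} (Γ : SimpleGraph V) (G : V → Type) [∀ v, Group (G v)]
    (e : V' ≃ V) : Nonempty (GrP Γ G ≃* GrP (Γ.comap e) (fun j => G (e j))) := by
  let K : ∀ v, G v →* GrP (Γ.comap e) (fun j => G (e j)) :=
    Equiv.piCongrLeft (fun v => G v →* GrP (Γ.comap e) (fun j => G (e j))) e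
      (fun j => inj (Γ.comap e) (fun j => G (e j)) j)
  have hK : ∀ j, K (e j) = inj (Γ.comap e) (fun j => G (e j)) j := fun j =>
    Equiv.piCongrLeft_apply_apply (fun v => G v →* GrP (Γ.comap e) (fun j => G (e j))) e _ j
  let F : GrP Γ G →* GrP (Γ.comap e) (fun j => G (e j)) := lift K (by
    intro v w h x y
    obtain ⟨i, rfl⟩ := e.surjective v
    obtain ⟨j, rfl⟩ := e.surjective w
    rw [hK, hK]
    exact inj_comm (Γ := Γ.comap e) (G := fun j => G (e j)) (v := i) (w := j) h x y)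
  let F' : GrP (Γ.comap e) (fun j => G (e j)) →* GrP Γ G := lift (fun j => inj Γ G (e j)) (by
    intro i j h x y
    exact inj_comm (Γ := Γ) h x y)
  have h1 : F'.comp F = MonoidHom.id _ := by
    apply gp_ext
    intro v x
    obtain ⟨i, rfl⟩ := e.surjective v
    show F' (F (inj Γ G (e i) x)) = inj Γ G (e i) x
    rw [lift_inj, hK, lift_inj]
  have h2 : F.comp F' = MonoidHom.id _ := by
    apply gp_ext
    intro j x
    show F (F' (inj (Γ.comap e) (fun j => G (e j)) j x)) = inj (Γ.comap e) (fun j => G (e j)) j x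
    rw [lift_inj, lift_inj, hK]
  exact ⟨MonoidHom.toMulEquiv F F' h1 h2⟩

/-! ## 2. refinement -/

/-- the refined graph -/
def rg {V : Type} (Γ : SimpleGraph V) (ι : V → Type) : SimpleGraph (Σ v, ι v) where
  Adj w w' := w ≠ w' ∧ (w.1 = w'.1 ∨ Γ.Adj w.1 w'.1)
  symm := ⟨fun _ _ h => ⟨h.1.symm, h.2.imp Eq.symm fun h => h.symm⟩⟩
  loopless := ⟨fun _ h => h.1 rfl⟩

theorem refine_iso {V : Type} (Γ : SimpleGraph V) (G : V → Type) [∀ v, Group (G v)]
    (ι : V → Type) [∀ v, Finite (ι v)] (H : ∀ v, ι v → Type) [∀ v i, Group (H v i)]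
    (ε : ∀ v, G v ≃* ∀ i, H v i) :
    Nonempty (GrP Γ G ≃* GrP (rg Γ ι) (fun w : Σ v, ι v => H w.1 w.2)) := by
  classical
  have : ∀ v, Fintype (ι v) := fun v => Fintype.ofFinite _
  let J : ∀ v (i : ι v), H v i →* GrP (rg Γ ι) (fun w : Σ v, ι v => H w.1 w.2) :=
    fun v i => inj (rg Γ ι) (fun w : Σ v, ι v => H w.1 w.2) ⟨v, i⟩
  have hJ1 : ∀ v, Pairwise fun i j => ∀ x y, Commute (J v i x) (J v j y) := by
    intro v i j hij x y
    refine inj_comm (Γ := rg Γ ι) (G := fun w : Σ v, ι v => H w.1 w.2) (v := ⟨v, i⟩)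
      (w := ⟨v, j⟩) ⟨fun e => hij ?_, Or.inl rfl⟩ x y
    simpa using e
  have hJ2 : ∀ v w, Γ.Adj v w → ∀ i j x y, Commute (J v i x) (J w j y) := by
    intro v w h i j x y
    refine inj_comm (Γ := rg Γ ι) (G := fun w : Σ v, ι v => H w.1 w.2) (v := ⟨v, i⟩)
      (w := ⟨w, j⟩) ⟨fun e => h.ne ?_, Or.inr h⟩ x y
    exact congrArg Sigma.fst e
  let N : ∀ v, (∀ i, H v i) →* GrP (rg Γ ι) (fun w : Σ v, ι v => H w.1 w.2) := fun v =>
    MonoidHom.noncommPiCoprod (J v) (hJ1 v)
  have hN : ∀ v i (x : H v i), N v (Pi.mulSingle i x) = J v i x := fun v i x =>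
    MonoidHom.noncommPiCoprod_mulSingle (ϕ := J v) (hcomm := hJ1 v) i x
  let F : GrP Γ G →* GrP (rg Γ ι) (fun w : Σ v, ι v => H w.1 w.2) :=
    lift (fun v => (N v).comp (ε v).toMonoidHom) (by
      intro v w h x y
      refine MonoidHom.commute_noncommPiCoprod (ϕ := J w) (hcomm := hJ1 w) (fun j z => ?_) _
      refine (MonoidHom.commute_noncommPiCoprod (ϕ := J v) (hcomm := hJ1 v) (fun i z' => ?_)
        _).symm
      exact (hJ2 v w h i j z' z).symm)
  let F' : GrP (rg Γ ι) (fun w : Σ v, ι v => H w.1 w.2) →* GrP Γ G :=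
    lift (fun w => ((inj Γ G w.1).comp (ε w.1).symm.toMonoidHom).comp
      (MonoidHom.mulSingle (H w.1) w.2)) (by
      rintro ⟨v, i⟩ ⟨w, j⟩ ⟨h1, h2⟩ x y
      rcases h2 with h2 | h2
      · obtain rfl : v = w := h2
        have hij : i ≠ j := fun e => h1 (by rw [e])
        exact ((Pi.mulSingle_commute hij x y).map (ε v).symm.toMonoidHom).map (inj Γ G v)
      · exact inj_comm (Γ := Γ) h2 _ _)
  have h1 : F'.comp F = MonoidHom.id _ := by
    apply gp_ext
    intro v x
    have h3 : (F'.comp (N v)) = (inj Γ G v).comp (ε v).symm.toMonoidHom := by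
      apply MonoidHom.pi_ext
      intro i z
      show F' (N v (Pi.mulSingle i z)) = inj Γ G v ((ε v).symm (Pi.mulSingle i z))
      rw [hN]
      exact lift_inj (Γ := rg Γ ι) (G := fun w : Σ v, ι v => H w.1 w.2) _ _ ⟨v, i⟩ z
    show F' (F (inj Γ G v x)) = inj Γ G v x
    rw [lift_inj]
    have h4 := DFunLike.congr_fun h3 (ε v x)
    refine h4.trans ?_
    show inj Γ G v ((ε v).symm (ε v x)) = inj Γ G v x
    rw [MulEquiv.symm_apply_apply]
  have h2 : F.comp F' = MonoidHom.id _ := by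
    apply gp_ext
    rintro ⟨v, i⟩ x
    show F (F' (inj (rg Γ ι) (fun w : Σ v, ι v => H w.1 w.2) ⟨v, i⟩ x)) =
      inj (rg Γ ι) (fun w : Σ v, ι v => H w.1 w.2) ⟨v, i⟩ x
    rw [lift_inj]
    show F (inj Γ G v ((ε v).symm (Pi.mulSingle i x))) = J v i x
    rw [lift_inj]
    show N v (ε v ((ε v).symm (Pi.mulSingle i x))) = J v i x
    rw [MulEquiv.apply_symm_apply, hN]
  exact ⟨MonoidHom.toMulEquiv F F' h1 h2⟩

/-! ## 3. decomposition of the vertex groups -/

/-- good factors -/
def Gd (X : Type) [Group X] : Prop := (Finite X ∧ Indec X) ∨ IsZ X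

/-- finite products of good factors -/
def Dc (X : Type) [Group X] : Prop :=
  ∃ (ι : Type) (_ : Finite ι) (H : ι → Type) (_ : ∀ i, Group (H i)), (∀ i, Gd (H i)) ∧
    Nonempty (X ≃* ∀ i, H i)

theorem Dc.of_equiv {X Y : Type} [Group X] [Group Y] (h : Dc X) (e : Y ≃* X) : Dc Y := by
  obtain ⟨ι, hι, H, gH, hH, ⟨f⟩⟩ := h
  exact ⟨ι, hι, H, gH, hH, ⟨e.trans f⟩⟩

theorem Dc.single {X : Type} [Group X] (h : Gd X) : Dc X :=
  ⟨Unit, inferInstance, fun _ => X, fun _ => inferInstance, fun _ => h,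
    ⟨(MulEquiv.piUnique (fun _ : Unit => X)).symm⟩⟩

theorem Dc.triv {X : Type} [Group X] (h : ∀ x : X, x = 1) : Dc X := by
  refine ⟨Empty, inferInstance, fun _ => Unit, fun _ => inferInstance, fun i => i.elim, ⟨?_⟩⟩
  have : Unique X := ⟨⟨1⟩, h⟩
  exact MulEquiv.ofUnique

theorem Dc.pi {κ : Type} [Finite κ] (X : κ → Type) [∀ k, Group (X k)] (h : ∀ k, Dc (X k)) :
    Dc (∀ k, X k) := by
  choose ι hι H gH hH e using h
  refine ⟨Σ k, ι k, inferInstance, fun w => H w.1 w.2, fun w => gH w.1 w.2,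
    fun w => hH w.1 w.2, ⟨?_⟩⟩
  exact {
    toFun := fun x w => (e w.1).some (x w.1) w.2
    invFun := fun y k => (e k).some.symm fun i => y ⟨k, i⟩
    left_inv := fun x => by
      funext k
      exact (e k).some.symm_apply_apply (x k)
    right_inv := fun y => by
      funext w
      obtain ⟨k, i⟩ := w
      exact congrFun ((e k).some.apply_symm_apply fun i => y ⟨k, i⟩) i
    map_mul' := fun x y => by
      funext w
      show (e w.1).some ((x * y) w.1) w.2 = _
      rw [Pi.mul_apply, map_mul]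
      rfl }

theorem Dc.prod {X Y : Type} [Group X] [Group Y] (hX : Dc X) (hY : Dc Y) : Dc (X × Y) := by
  let Z : Bool → Type := fun b => if b then X else Y
  let gZ : ∀ b, Group (Z b) := fun b => by
    cases b
    · exact (inferInstance : Group Y)
    · exact (inferInstance : Group X)
  have h : Dc (∀ b, Z b) := by
    apply Dc.pi
    intro b
    cases b
    · exact hY
    · exact hX
  refine h.of_equiv ?_
  exact {
    toFun := fun p b => match b with
      | true => p.1
      | false => p.2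
    invFun := fun f => (f true, f false)
    left_inv := fun p => rfl
    right_inv := fun f => by
      funext b
      cases b <;> rfl
    map_mul' := fun p q => by
      funext b
      cases b <;> rfl }

theorem dc_finite (n : ℕ) : ∀ (X : Type) [Group X] [Finite X], Nat.card X ≤ n → Dc X := by
  induction n with
  | zero =>
    intro X _ _ h
    have := Nat.card_pos (α := X)
    omega
  | succ n ih =>
    intro X _ _ h
    by_cases h1 : ∀ x : X, x = 1
    · exact Dc.triv h1
    by_cases h2 : Indec X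
    · exact Dc.single (Or.inl ⟨inferInstance, h2⟩)
    push Not at h1
    have h3 : ∃ (A B : Type) (_ : Group A) (_ : Group B), Nonempty (X ≃* A × B) ∧
        (∃ a : A, a ≠ 1) ∧ (∃ b : B, b ≠ 1) := by
      by_contra hc
      push Not at hc
      refine h2 ⟨h1, fun A B _ _ e => ?_⟩
      by_cases hA : ∃ a : A, a ≠ 1
      · right
        intro b
        exact hc A B inferInstance inferInstance e hA b
      · left
        push Not at hA
        exact hA
    obtain ⟨A, B, _, _, ⟨e⟩, ⟨a, ha⟩, ⟨b, hb⟩⟩ := h3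
    have hf : Finite (A × B) := Finite.of_equiv X e.toEquiv
    have hfA : Finite A := Finite.of_injective (fun a : A => (a, (1 : B))) fun x y h => by
      simpa using h
    have hfB : Finite B := Finite.of_injective (fun b : B => ((1 : A), b)) fun x y h => by
      simpa using h
    have hc : Nat.card X = Nat.card A * Nat.card B := by
      rw [Nat.card_congr e.toEquiv, Nat.card_prod]
    have hA2 : 1 < Nat.card A := by
      have : Nontrivial A := ⟨a, 1, ha⟩
      exact Finite.one_lt_card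
    have hB2 : 1 < Nat.card B := by
      have : Nontrivial B := ⟨b, 1, hb⟩
      exact Finite.one_lt_card
    have hA3 : Nat.card A ≤ n := by nlinarith
    have hB3 : Nat.card B ≤ n := by nlinarith
    exact ((ih A hA3).prod (ih B hB3)).of_equiv e

theorem dc_abelian (X : Type) [Group X] (h1 : Group.FG X) (h2 : ∀ x y : X, x * y = y * x) :
    Dc X := by
  let _ : CommGroup X := { (inferInstance : Group X) with mul_comm := h2 }
  obtain ⟨ι, j, _, _, p, hp, e, ⟨f⟩⟩ := CommGroup.equiv_free_prod_prod_multiplicative_zmod X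
  have hne : ∀ i, NeZero (p i ^ e i) := fun i => ⟨pow_ne_zero _ (hp i).ne_zero⟩
  have hfin : ∀ i, Finite (Multiplicative (ZMod (p i ^ e i))) := fun i =>
    Finite.of_equiv (ZMod (p i ^ e i)) Multiplicative.ofAdd
  have hj : Dc (j → Multiplicative ℤ) :=
    Dc.pi (fun _ : j => Multiplicative ℤ) fun _ => Dc.single (Or.inr ⟨MulEquiv.refl _⟩)
  have hι : Dc (∀ i, Multiplicative (ZMod (p i ^ e i))) :=
    Dc.pi _ fun i => dc_finite _ _ le_rfl
  exact (hj.prod hι).of_equiv f

/-- SBS -/
theorem t_SBS : S_SBS := by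
  intro n Γ G _ hG
  have hD : ∀ v, Dc (G v) := by
    intro v
    rcases hG v with h | ⟨h1, h2⟩
    · exact dc_finite _ _ le_rfl
    · exact dc_abelian _ h1 h2
  choose ι hι H gH hH ε using hD
  obtain ⟨f⟩ := refine_iso Γ G ι H (fun v => (ε v).some)
  obtain ⟨m, ⟨e⟩⟩ := Finite.exists_equiv_fin (Σ v, ι v)
  obtain ⟨f'⟩ := reindex (rg Γ ι) (fun w : Σ v, ι v => H w.1 w.2) e.symm
  exact ⟨m, (rg Γ ι).comap e.symm, fun j => H (e.symm j).1 (e.symm j).2, fun j => inferInstance,
    fun w => hH _ _, ⟨f.trans f'⟩⟩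

end Pool.Agent.L0h68.GI
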