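import Pool.Agent.L0h38.GI.Stm3

/-!
# Module SIG of project GI2: the bijection of the FA vertices
-/

set_option autoImplicit false

namespace Pool.Agent.L0h68.GI

open Pool.Agent.L0h38.GI

section basic

variable {V : Type} {Γ : SimpleGraph V} {G : V → Type} [∀ v, Group (G v)]

theorem toPi_ret_mem {S : Set V} {v : V} (hv : v ∈ S) (y : GrP Γ G) :
    toPi (ret S y) v = toPi y v := by
  have h : ((Pi.evalMonoidHom G v).comp (toPi (Γ := Γ))).comp (ret S) =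
      (Pi.evalMonoidHom G v).comp (toPi (Γ := Γ)) := by
    apply gp_ext
    intro w x
    show toPi (ret S (inj Γ G w x)) v = toPi (inj Γ G w x) v
    by_cases hw : w ∈ S
    · rw [ret_inj_mem hw]
    · have hne : v ≠ w := fun e => hw (e ▸ hv)
      rw [ret_inj_not hw, map_one, toPi_inj_ne hne]
      rfl
  exact DFunLike.congr_fun h y

theorem toPi_ret_not {S : Set V} {v : V} (hv : v ∉ S) (y : GrP Γ G) :
    toPi (ret S y) v = 1 := by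
  have h : ((Pi.evalMonoidHom G v).comp (toPi (Γ := Γ))).comp (ret S) = 1 := by
    apply gp_ext
    intro w x
    show toPi (ret S (inj Γ G w x)) v = 1
    by_cases hw : w ∈ S
    · have hne : v ≠ w := fun e => hv (e ▸ hw)
      rw [ret_inj_mem hw, toPi_inj_ne hne]
    · rw [ret_inj_not hw, map_one]
      rfl
  exact DFunLike.congr_fun h y

theorem mem_P_iff (hR : S_RET) (hC : S_CLQ) {K S : Set V} (hK : Γ.IsClique K) (hf : K.Finite)
    {y : GrP Γ G} (hy : y ∈ P Γ G K) :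
    y ∈ P Γ G S ↔ ∀ v, toPi y v ≠ 1 → v ∈ S := by
  constructor
  · intro h v hv
    by_contra hn
    exact hv ((hR V Γ G S S).2.2.2.2.2 y h v hn)
  · intro h
    have h1 : ret S y ∈ P Γ G K :=
      P_mono Set.inter_subset_right ((hR V Γ G S K).2.2.1 y hy)
    have h2 : y = ret S y := by
      refine (hC V Γ G K hK hf).1 y hy _ h1 ?_
      funext v
      by_cases hv : v ∈ S
      · rw [toPi_ret_mem hv]
      · rw [toPi_ret_not hv]
        by_contra hn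
        exact hv (h v hn)
    rw [h2]
    exact (hR V Γ G S S).2.1 y

theorem clq_equiv (hC : S_CLQ) {K : Set V} (hK : Γ.IsClique K) (hf : K.Finite) :
    Nonempty ((∀ v : K, G v) ≃* P Γ G K) := by
  obtain ⟨-, κ, hκ, hr, -⟩ := hC V Γ G K hK hf
  exact ⟨(MonoidHom.ofInjective hκ).trans (MulEquiv.subgroupCongr hr)⟩

theorem xi_conj (c : ∀ i : VZ G, G i.1 ≃* Multiplicative ℤ) (g y : GrP Γ G) :
    xi c (g⁻¹ * y * g) = xi c y := by
  funext i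
  have e1 : toPi (g⁻¹ * y * g) i.1 = (toPi g i.1)⁻¹ * toPi y i.1 * toPi g i.1 := by
    rw [map_mul, map_mul, map_inv]
    rfl
  have h : c i (toPi (g⁻¹ * y * g) i.1) = c i (toPi y i.1) := by
    rw [e1, (c i).map_mul, (c i).map_mul, map_inv (c i), mul_comm, mul_inv_cancel_left]
  exact congrArg Multiplicative.toAdd h

/-- FA cliques -/
def FC (Γ : SimpleGraph V) (G : V → Type) [∀ v, Group (G v)] (K : Set V) : Prop :=
  Γ.IsClique K ∧ ∀ v ∈ K, FA (G v)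

theorem exists_max [Finite V] {K : Set V} (h : FC Γ G K) : ∃ K', K ⊆ K' ∧ MaxF Γ G K' := by
  obtain ⟨K', h1, h2⟩ := Finite.exists_le_maximal (p := FC Γ G) h
  refine ⟨K', h1, h2.1, fun K'' hc hF hs => ?_⟩
  exact Set.Subset.antisymm (h2.2 ⟨hc, hF⟩ hs) hs

theorem adj_iff [Finite V] (v v' : {v // FA (G v)}) :
    Γ.Adj v.1 v'.1 ↔ v ≠ v' ∧ ∃ K, MaxF Γ G K ∧ v.1 ∈ K ∧ v'.1 ∈ K := by
  constructor
  · intro h
    refine ⟨fun e => h.ne (congrArg Subtype.val e), ?_⟩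
    obtain ⟨K, h1, h2⟩ := exists_max (Γ := Γ) (G := G) (K := {v.1, v'.1}) ⟨by
      rw [SimpleGraph.isClique_pair]
      exact fun _ => h, by
      rintro w (rfl | rfl)
      · exact v.2
      · exact v'.2⟩
    exact ⟨K, h2, h1 (by simp), h1 (by simp)⟩
  · rintro ⟨h1, K, h2, h3, h4⟩
    exact h2.1.1 h3 h4 fun e => h1 (Subtype.ext e)

theorem ok23 {X : Type} [Group X] (h : Ok2 X) : Ok3 X := by
  rcases h with ⟨h1, -, h2⟩ | h
  · exact ⟨Or.inl h1, h2.1⟩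
  · refine ⟨Or.inr h, ?_⟩
    obtain ⟨f⟩ := h
    refine ⟨f.symm (Multiplicative.ofAdd 1), fun e => ?_⟩
    have h1 : Multiplicative.ofAdd (1 : ℤ) = Multiplicative.ofAdd 0 :=
      ((MulEquiv.symm_apply_eq f).1 e).trans f.map_one
    exact absurd (Multiplicative.ofAdd.injective h1) (by norm_num)

theorem fa_ok (hZ : S_FAZ) {X : Type} [Group X] (h : Ok2 X) (hF : FA X) : FinC X ∧ Indec X := by
  rcases h with ⟨-, h1, h2⟩ | ⟨⟨f⟩⟩
  · exact ⟨h1, h2⟩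
  · exfalso
    have h1 := hZ X hF f.toMonoidHom (f.symm (Multiplicative.ofAdd 1))
    have h2 : f (f.symm (Multiplicative.ofAdd 1)) = Multiplicative.ofAdd 0 := h1
    have h3 : Multiplicative.ofAdd (1 : ℤ) = Multiplicative.ofAdd 0 :=
      (f.apply_symm_apply _).symm.trans h2
    exact absurd (Multiplicative.ofAdd.injective h3) (by norm_num)

end basic

section main

variable {V W : Type} [Finite V] [Finite W] {Γ : SimpleGraph V} {Δ : SimpleGraph W}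
  {G : V → Type} {H : W → Type} [∀ v, Group (G v)] [∀ w, Group (H w)] [Fintype (VZ G)]
  [Fintype (VZ H)] [DecidableEq (VZ G)] [DecidableEq (VZ H)]

theorem key (hX : S_UX) (e : GrP Γ G ≃* GrP Δ H)
    (c : ∀ i : VZ G, G i.1 ≃* Multiplicative ℤ) (d : ∀ j : VZ H, H j.1 ≃* Multiplicative ℤ)
    (L : Lin e c d) {I : Set V} {I' : Set W} (hI : FC Γ G I) (hI' : FC Δ H I') (g : GrP Δ H)
    {y : GrP Γ G} (hy : y ∈ P Γ G I) (hy' : g⁻¹ * e y * g ∈ P Δ H I') (u : VZ H → ℤ) :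
    (∀ v, toPi y v ≠ 1 → ∀ i : VZ G, L.T'.mulVec u i ≠ 0 → Γ.Adj v i.1) ↔
      ∀ w, toPi (g⁻¹ * e y * g) w ≠ 1 → ∀ j : VZ H, u j ≠ 0 → Δ.Adj w j.1 := by
  have h1 := hX V Γ G c I hI.1 hI.2 y hy (L.T'.mulVec u)
  have h2 := hX W Δ H d I' hI'.1 hI'.2 _ hy' u
  have h3 : (∀ v, toPi y v ≠ 1 → ∀ i : VZ G, L.T'.mulVec u i ≠ 0 → Γ.Adj v i.1) ↔
      ∀ i : VZ G, L.T'.mulVec u i ≠ 0 → ∀ v, toPi y v ≠ 1 → Γ.Adj v i.1 :=
    ⟨fun h i hi v hv => h v hv i hi, fun h v hv i hi => h i hi v hv⟩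
  have h4 : (∀ w, toPi (g⁻¹ * e y * g) w ≠ 1 → ∀ j : VZ H, u j ≠ 0 → Δ.Adj w j.1) ↔
      ∀ j : VZ H, u j ≠ 0 → ∀ w, toPi (g⁻¹ * e y * g) w ≠ 1 → Δ.Adj w j.1 :=
    ⟨fun h i hi v hv => h v hv i hi, fun h v hv i hi => h i hi v hv⟩
  rw [h3, h4, ← h1, ← h2]
  constructor
  · rintro ⟨y2, hc, hx⟩
    refine ⟨g⁻¹ * e y2 * g, ?_, ?_⟩
    · have h5 : Commute (e y2) (e y) := hc.map e.toMonoidHom
      show g⁻¹ * e y2 * g * (g⁻¹ * e y * g) = g⁻¹ * e y * g * (g⁻¹ * e y2 * g)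
      have h6 := h5.eq
      calc g⁻¹ * e y2 * g * (g⁻¹ * e y * g) = g⁻¹ * (e y2 * e y) * g := by group
        _ = g⁻¹ * (e y * e y2) * g := by rw [h6]
        _ = _ := by group
    · rw [xi_conj, L.e1, hx, Matrix.mulVec_mulVec, L.h1, Matrix.one_mulVec]
  · rintro ⟨y3, hc, hx⟩
    refine ⟨e.symm (g * y3 * g⁻¹), ?_, ?_⟩
    · have h5 : y = e.symm (g * (g⁻¹ * e y * g) * g⁻¹) := by
        rw [show g * (g⁻¹ * e y * g) * g⁻¹ = e y by group, MulEquiv.symm_apply_apply]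
      have h6 : Commute (g * y3 * g⁻¹) (g * (g⁻¹ * e y * g) * g⁻¹) := by
        have h7 := hc.eq
        show g * y3 * g⁻¹ * (g * (g⁻¹ * e y * g) * g⁻¹) =
          g * (g⁻¹ * e y * g) * g⁻¹ * (g * y3 * g⁻¹)
        calc g * y3 * g⁻¹ * (g * (g⁻¹ * e y * g) * g⁻¹)
            = g * (y3 * (g⁻¹ * e y * g)) * g⁻¹ := by group
          _ = g * ((g⁻¹ * e y * g) * y3) * g⁻¹ := by rw [h7]
          _ = _ := by group
      have h8 := h6.map e.symm.toMonoidHom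
      rw [h5]
      exact h8
    · have h9 : xi d (g * y3 * g⁻¹) = xi d y3 := by
        have := xi_conj (Γ := Δ) d g⁻¹ y3
        rwa [inv_inv] at this
      rw [L.e2, h9, hx]

theorem sub_mem (hR : S_RET) (hC : S_CLQ) (hX : S_UX) (e : GrP Γ G ≃* GrP Δ H)
    (c : ∀ i : VZ G, G i.1 ≃* Multiplicative ℤ) (d : ∀ j : VZ H, H j.1 ≃* Multiplicative ℤ)
    (L : Lin e c d) {I : Set V} {I' : Set W} (hI : FC Γ G I) (hI' : FC Δ H I') (g : GrP Δ H)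
    (hg : ∀ y, y ∈ P Γ G I ↔ g⁻¹ * e y * g ∈ P Δ H I') (U : Set (VZ H → ℤ)) (y : GrP Γ G) :
    y ∈ P Γ G {v ∈ I | ∀ u ∈ U, ∀ i : VZ G, L.T'.mulVec u i ≠ 0 → Γ.Adj v i.1} ↔
      g⁻¹ * e y * g ∈ P Δ H {w ∈ I' | ∀ u ∈ U, ∀ j : VZ H, u j ≠ 0 → Δ.Adj w j.1} := by
  by_cases hy : y ∈ P Γ G I
  · have hy' := (hg y).1 hy
    rw [mem_P_iff hR hC hI.1 (Set.toFinite _) hy, mem_P_iff hR hC hI'.1 (Set.toFinite _) hy']
    have h1 := (mem_P_iff hR hC hI.1 (Set.toFinite _) hy).1 hy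
    have h2 := (mem_P_iff hR hC hI'.1 (Set.toFinite _) hy').1 hy'
    constructor
    · intro h w hw
      refine ⟨h2 w hw, fun u hu => ?_⟩
      exact (key hX e c d L hI hI' g hy hy' u).1 (fun v hv => (h v hv).2 u hu) w hw
    · intro h v hv
      refine ⟨h1 v hv, fun u hu => ?_⟩
      exact (key hX e c d L hI hI' g hy hy' u).2 (fun w hw => (h w hw).2 u hu) v hv
  · have h1 : P Γ G {v ∈ I | ∀ u ∈ U, ∀ i : VZ G, L.T'.mulVec u i ≠ 0 → Γ.Adj v i.1} ≤ P Γ G I :=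
      P_mono fun v hv => hv.1
    have h2 : P Δ H {w ∈ I' | ∀ u ∈ U, ∀ j : VZ H, u j ≠ 0 → Δ.Adj w j.1} ≤ P Δ H I' :=
      P_mono fun v hv => hv.1
    constructor
    · intro h
      exact absurd (h1 h) hy
    · intro h
      exact absurd ((hg y).2 (h2 h)) hy

theorem sub_equiv (hR : S_RET) (hC : S_CLQ) (hX : S_UX) (hK : S_KSN) (hZ : S_FAZ)
    (hG : ∀ v, Ok2 (G v)) (hH : ∀ w, Ok2 (H w)) (e : GrP Γ G ≃* GrP Δ H)
    (c : ∀ i : VZ G, G i.1 ≃* Multiplicative ℤ) (d : ∀ j : VZ H, H j.1 ≃* Multiplicative ℤ)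
    (L : Lin e c d) {I : Set V} {I' : Set W} (hI : FC Γ G I) (hI' : FC Δ H I') (g : GrP Δ H)
    (hg : ∀ y, y ∈ P Γ G I ↔ g⁻¹ * e y * g ∈ P Δ H I') (U : Set (VZ H → ℤ)) :
    ∃ σ : {v ∈ I | ∀ u ∈ U, ∀ i : VZ G, L.T'.mulVec u i ≠ 0 → Γ.Adj v i.1} ≃
      {w ∈ I' | ∀ u ∈ U, ∀ j : VZ H, u j ≠ 0 → Δ.Adj w j.1},
      ∀ v, Nonempty (G v.1 ≃* H (σ v).1) := by
  have hm := sub_mem hR hC hX e c d L hI hI' g hg U
  set S : Set V := {v ∈ I | ∀ u ∈ U, ∀ i : VZ G, L.T'.mulVec u i ≠ 0 → Γ.Adj v i.1} with hS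
  set S' : Set W := {w ∈ I' | ∀ u ∈ U, ∀ j : VZ H, u j ≠ 0 → Δ.Adj w j.1} with hS'
  have hSI : S ⊆ I := fun v hv => hv.1
  have hSI' : S' ⊆ I' := fun v hv => hv.1
  let φ : GrP Γ G ≃* GrP Δ H := e.trans (MulAut.conj g⁻¹)
  have hφ : ∀ y, φ y = g⁻¹ * e y * g := fun y => by
    show g⁻¹ * e y * g⁻¹⁻¹ = g⁻¹ * e y * g
    rw [inv_inv]
  have hmap : (P Γ G S).map φ.toMonoidHom = P Δ H S' := by
    ext y'
    constructor
    · rintro ⟨y, hy, rfl⟩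
      show φ y ∈ _
      rw [hφ]
      exact (hm y).1 hy
    · intro hy'
      refine ⟨φ.symm y', ?_, φ.apply_symm_apply y'⟩
      refine (hm _).2 ?_
      rw [← hφ, MulEquiv.apply_symm_apply]
      exact hy'
  obtain ⟨f1⟩ := clq_equiv (G := G) hC (hI.1.subset hSI) (Set.toFinite S)
  obtain ⟨f2⟩ := clq_equiv (G := H) hC (hI'.1.subset hSI') (Set.toFinite S')
  have f : P Γ G S ≃* P Δ H S' := (φ.subgroupMap (P Γ G S)).trans (MulEquiv.subgroupCongr hmap)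
  have h1 : ∀ v : S, FinC (G v) ∧ Indec (G v) := fun v => fa_ok hZ (hG v) (hI.2 v (hSI v.2))
  have h2 : ∀ w : S', FinC (H w) ∧ Indec (H w) := fun w => fa_ok hZ (hH w) (hI'.2 w (hSI' w.2))
  exact hK S S' (fun v => G v) (fun w => H w) (fun v => (h1 v).1) (fun v => (h1 v).2)
    (fun w => (h2 w).1) (fun w => (h2 w).2) ⟨(f1.trans f).trans f2.symm⟩

end main

/-- SIG -/
theorem t_SIG (hMU : S_MU) (hINT : S_INT) (hX : S_UX) (hC : S_CLQ) (hR : S_RET) (hK : S_KSN)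
    (hMOB : S_MOB) (hZ : S_FAZ) : S_SIG := by
  intro V W _ _ Γ Δ G H _ _ _ _ _ _ hG hH e c d L
  obtain ⟨μ, hμ⟩ := hMU V W Γ Δ G H (fun v => ok23 (hG v)) (fun w => ok23 (hH w)) e
  let VF : Type := {v : V // FA (G v)}
  let WF : Type := {w : W // FA (H w)}
  let tv : VF → Set WF := fun v => {w | Nonempty (G v.1 ≃* H w.1)}
  let tw : WF → Set WF := fun w => {w' | Nonempty (H w.1 ≃* H w'.1)}
  have htw : ∀ v w, Nonempty (G v.1 ≃* H w.1) → tv v = tw w := by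
    rintro v w ⟨f⟩
    ext w'
    constructor
    · rintro ⟨f'⟩; exact ⟨f.symm.trans f'⟩
    · rintro ⟨f'⟩; exact ⟨f.trans f'⟩
  have htw' : ∀ v w, tv v = tw w → Nonempty (G v.1 ≃* H w.1) := by
    intro v w h
    have h1 : w ∈ tw w := ⟨MulEquiv.refl _⟩
    rw [← h] at h1
    exact h1
  let E : Type := Set (Set WF) × Set {K // MaxF Δ H K} × Set (VZ H → ℤ)
  let a : VF → E := fun v => ({tv v}, {K' | v.1 ∈ (μ.symm K').1},
    {u | ∀ i : VZ G, L.T'.mulVec u i ≠ 0 → Γ.Adj v.1 i.1})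
  let b : WF → E := fun w => ({tw w}, {K' | w.1 ∈ K'.1},
    {u | ∀ j : VZ H, u j ≠ 0 → Δ.Adj w.1 j.1})
  have hcount : ∀ (t : Set (Set WF)) (R' : Set {K // MaxF Δ H K}) (U : Set (VZ H → ℤ)),
      R'.Nonempty → Nat.card {v // ((t, R', U) : E) ≤ a v} =
        Nat.card {w // ((t, R', U) : E) ≤ b w} := by
    intro t R' U hne
    let R : Set {K // MaxF Γ G K} := {K | μ K ∈ R'}
    have hRne : R.Nonempty := by
      obtain ⟨K', hK'⟩ := hne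
      refine ⟨μ.symm K', ?_⟩
      show μ (μ.symm K') ∈ R'
      rw [Equiv.apply_symm_apply]
      exact hK'
    obtain ⟨g, hg⟩ := hINT V W Γ Δ G H (fun v => ok23 (hG v)) (fun w => ok23 (hH w)) e μ hμ R hRne
    set I : Set V := ⋂ K ∈ R, K.1 with hI0
    set I' : Set W := ⋂ K ∈ R, (μ K).1 with hI0'
    have hI : FC Γ G I := by
      obtain ⟨K, hK1⟩ := hRne
      have h1 : I ⊆ K.1 := Set.biInter_subset_of_mem hK1
      exact ⟨K.2.1.1.subset h1, fun v hv => K.2.1.2 v (h1 hv)⟩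
    have hI' : FC Δ H I' := by
      obtain ⟨K, hK1⟩ := hRne
      have h1 : I' ⊆ (μ K).1 := Set.biInter_subset_of_mem hK1
      exact ⟨(μ K).2.1.1.subset h1, fun v hv => (μ K).2.1.2 v (h1 hv)⟩
    let S : Set V := {v ∈ I | ∀ u ∈ U, ∀ i : VZ G, L.T'.mulVec u i ≠ 0 → Γ.Adj v i.1}
    let S' : Set W := {w ∈ I' | ∀ u ∈ U, ∀ j : VZ H, u j ≠ 0 → Δ.Adj w j.1}
    obtain ⟨σ, hσ⟩ : ∃ σ : S ≃ S', ∀ v, Nonempty (G v.1 ≃* H (σ v).1) :=
      sub_equiv hR hC hX hK hZ hG hH e c d L hI hI' g hg U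
    have hSF : ∀ v : S, FA (G v.1) := fun v => hI.2 v.1 v.2.1
    have hSF' : ∀ w : S', FA (H w.1) := fun w => hI'.2 w.1 w.2.1
    have ha : ∀ v : VF, ((t, R', U) : E) ≤ a v ↔ (t ⊆ {tv v} ∧ v.1 ∈ S) := by
      intro v
      show (t ⊆ {tv v} ∧ R' ⊆ {K' | v.1 ∈ (μ.symm K').1} ∧
        U ⊆ {u | ∀ i : VZ G, L.T'.mulVec u i ≠ 0 → Γ.Adj v.1 i.1}) ↔ _
      refine and_congr Iff.rfl (and_congr ?_ Iff.rfl)
      rw [hI0, Set.mem_iInter₂]
      constructor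
      · intro h K hK1
        have h1 : v.1 ∈ (μ.symm (μ K)).1 := h hK1
        rwa [Equiv.symm_apply_apply] at h1
      · intro h K' hK'
        refine h (μ.symm K') ?_
        show μ (μ.symm K') ∈ R'
        rw [Equiv.apply_symm_apply]
        exact hK'
    have hb : ∀ w : WF, ((t, R', U) : E) ≤ b w ↔ (t ⊆ {tw w} ∧ w.1 ∈ S') := by
      intro w
      show (t ⊆ {tw w} ∧ R' ⊆ {K' | w.1 ∈ K'.1} ∧
        U ⊆ {u | ∀ j : VZ H, u j ≠ 0 → Δ.Adj w.1 j.1}) ↔ _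
      refine and_congr Iff.rfl (and_congr ?_ Iff.rfl)
      rw [hI0', Set.mem_iInter₂]
      constructor
      · intro h K hK1
        exact h hK1
      · intro h K' hK'
        have h1 := h (μ.symm K') (by
          show μ (μ.symm K') ∈ R'
          rw [Equiv.apply_symm_apply]
          exact hK')
        rwa [Equiv.apply_symm_apply] at h1
    have E1 : {v // ((t, R', U) : E) ≤ a v} ≃ {v : S // t ⊆ {tv ⟨v.1, hSF v⟩}} := {
      toFun := fun p => ⟨⟨p.1.1, ((ha p.1).1 p.2).2⟩, ((ha p.1).1 p.2).1⟩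
      invFun := fun q => ⟨⟨q.1.1, hSF q.1⟩, (ha _).2 ⟨q.2, q.1.2⟩⟩
      left_inv := fun p => rfl
      right_inv := fun q => rfl }
    have E3 : {w // ((t, R', U) : E) ≤ b w} ≃ {w : S' // t ⊆ {tw ⟨w.1, hSF' w⟩}} := {
      toFun := fun p => ⟨⟨p.1.1, ((hb p.1).1 p.2).2⟩, ((hb p.1).1 p.2).1⟩
      invFun := fun q => ⟨⟨q.1.1, hSF' q.1⟩, (hb _).2 ⟨q.2, q.1.2⟩⟩
      left_inv := fun p => rfl
      right_inv := fun q => rfl }
    have E2 : {v : S // t ⊆ {tv ⟨v.1, hSF v⟩}} ≃ {w : S' // t ⊆ {tw ⟨w.1, hSF' w⟩}} :=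
      σ.subtypeEquiv fun v => by
        rw [htw ⟨v.1, hSF v⟩ ⟨(σ v).1, hSF' (σ v)⟩ (hσ v)]
    exact Nat.card_congr ((E1.trans E2).trans E3.symm)
  have hVF : Finite VF := Subtype.finite
  have hWF : Finite WF := Subtype.finite
  obtain ⟨σ, hσ⟩ := hMOB E VF WF a b (by
    rintro ⟨t, R', U⟩ h
    refine hcount t R' U ?_
    rcases h with ⟨v, hv⟩ | ⟨w, hw⟩
    · obtain ⟨K, h1, h2⟩ := exists_max (Γ := Γ) (G := G) (K := {v.1}) ⟨by simp, by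
        rintro w rfl
        exact v.2⟩
      refine ⟨μ ⟨K, h2⟩, ?_⟩
      have h3 : R' = {K' | v.1 ∈ (μ.symm K').1} := (congrArg (fun x : E => x.2.1) hv).symm
      rw [h3]
      show v.1 ∈ (μ.symm (μ ⟨K, h2⟩)).1
      rw [Equiv.symm_apply_apply]
      exact h1 rfl
    · obtain ⟨K, h1, h2⟩ := exists_max (Γ := Δ) (G := H) (K := {w.1}) ⟨by simp, by
        rintro w' rfl
        exact w.2⟩
      refine ⟨⟨K, h2⟩, ?_⟩
      have h3 : R' = {K' | w.1 ∈ K'.1} := (congrArg (fun x : E => x.2.1) hw).symm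
      rw [h3]
      exact h1 rfl)
  have h1 : ∀ v, tw (σ v) = tv v := fun v =>
    Set.singleton_injective (congrArg (fun x : E => x.1) (hσ v))
  have h2 : ∀ v K', (σ v).1 ∈ K'.1 ↔ v.1 ∈ (μ.symm K').1 := fun v K' =>
    Set.ext_iff.1 (congrArg (fun x : E => x.2.1) (hσ v)) K'
  have h3 : ∀ v u, (∀ j : VZ H, u j ≠ 0 → Δ.Adj (σ v).1 j.1) ↔
      (∀ i : VZ G, L.T'.mulVec u i ≠ 0 → Γ.Adj v.1 i.1) := fun v u =>
    Set.ext_iff.1 (congrArg (fun x : E => x.2.2) (hσ v)) u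
  refine ⟨σ, fun v => htw' v (σ v) (h1 v).symm, fun v v' => ?_, fun v z => ?_⟩
  · rw [adj_iff, adj_iff]
    refine and_congr (not_congr σ.injective.eq_iff.symm) ⟨?_, ?_⟩
    · rintro ⟨K, hK1, hv, hv'⟩
      refine ⟨(μ ⟨K, hK1⟩).1, (μ ⟨K, hK1⟩).2, (h2 v _).2 ?_, (h2 v' _).2 ?_⟩
      · rw [Equiv.symm_apply_apply]; exact hv
      · rw [Equiv.symm_apply_apply]; exact hv'
    · rintro ⟨K', hK1, hv, hv'⟩
      exact ⟨(μ.symm ⟨K', hK1⟩).1, (μ.symm ⟨K', hK1⟩).2, (h2 v ⟨K', hK1⟩).1 hv,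
        (h2 v' ⟨K', hK1⟩).1 hv'⟩
  · rw [h3, Matrix.mulVec_mulVec, L.h2, Matrix.one_mulVec]

end Pool.Agent.L0h68.GI
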